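import Mathlib
import Pool.Agent.TH888.R.Base
import Pool.Agent.W66.ST

set_option autoImplicit false

/-!
# Which sets of exponents contain infinitely many Mersenne type primes: the dichotomy in base two

For real `β > 0` and a prime `p` let `W β p` be the `p`-rough part (the product, with multiplicity,
of the prime factors larger than `p`) of the largest integer below `β * 2 ^ p`.  For `β = 1` this is
the Mersenne number `2 ^ p - 1` itself.  We prove that for every set `S` of primes and almost every
`β > 0` the number `W β p` is prime for infinitely many `p` in `S` if and only if the sum of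
`log p / p` over the primes `p` in `S` diverges.
-/

namespace Pool.Agent.Results.MP_9b2bac_nt.Dichotomy

open Filter Topology MeasureTheory

/-- The product, with multiplicity, of the prime factors of `m` that are larger than `p`. -/
def roughPart (p m : ℕ) : ℕ := (m.primeFactorsList.filter (fun r => p < r)).prod

/-- The `p`-rough part of the largest integer below `β * 2 ^ p`. -/
noncomputable def W (β : ℝ) (p : ℕ) : ℕ := roughPart p (⌈β * 2 ^ p⌉₊ - 1)

lemma W_one {p : ℕ} (hp : p.Prime) : W 1 p = 2 ^ p - 1 := by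
  have h := Pool.Agent.W66S.repunit_special (b := 2) le_rfl hp (by
    intro h
    exact hp.one_lt.ne' (Nat.dvd_one.1 h))
  have e1 : ⌈(1 / (((2 : ℕ) : ℝ) - 1)) * ((2 : ℕ) : ℝ) ^ p⌉₊ = ⌈(1 : ℝ) * 2 ^ p⌉₊ := by
    congr 1
    push_cast
    norm_num
  rw [e1, Nat.geomSum_eq le_rfl] at h
  have h2 : W 1 p = Pool.Agent.H305R2.roughPart p (⌈(1 : ℝ) * 2 ^ p⌉₊ - 1) := rfl
  rw [h2, h]
  norm_num

open Classical in
lemma div_iff (S : Set ℕ) : (¬ Summable (fun p : ℕ => if p.Prime ∧ p ∈ S then Real.log p / p else 0)) ↔
    Tendsto (Pool.Agent.TH888.R.VS S) atTop atTop := by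
  rw [not_summable_iff_tendsto_nat_atTop_of_nonneg]
  · rw [← tendsto_add_atTop_iff_nat 1]
    have e : (fun n : ℕ => ∑ p ∈ Finset.range (n + 1), if p.Prime ∧ p ∈ S then Real.log p / (p : ℝ) else 0) =
        Pool.Agent.TH888.R.VS S := by
      funext n
      unfold Pool.Agent.TH888.R.VS
      refine Finset.sum_congr rfl fun p _ => ?_
      by_cases h : p.Prime ∧ p ∈ S
      · rw [if_pos h, if_pos ⟨h.2, h.1⟩]
        rfl
      · rw [if_neg h, if_neg fun h1 => h ⟨h1.2, h1.1⟩]
    rw [e]
  · intro p
    split_ifs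
    · exact Pool.Agent.TH888.R.wt_nonneg p
    · exact le_rfl

open Classical in
/-- At `β = 1` the integers are the Mersenne numbers, and for every set `S` and almost every
amplitude `β`, with the base `2` fixed, `W β p` is prime for infinitely many primes `p` in `S` if and
only if the sum of `log p / p` over the primes in `S` diverges. -/
theorem result :
    (∀ p : ℕ, p.Prime → W 1 p = 2 ^ p - 1) ∧
    (∀ S : Set ℕ, ∀ᵐ β : ℝ, 0 < β →
      ({p : ℕ | p.Prime ∧ p ∈ S ∧ (W β p).Prime}.Infinite ↔
        ¬ Summable (fun p : ℕ => if p.Prime ∧ p ∈ S then Real.log p / p else 0))) := by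
  refine ⟨fun p hp => W_one hp, fun S => ?_⟩
  have hg : ∀ p : ℕ, |(fun _ : ℕ => (0 : ℝ)) p| ≤ (0 : ℝ) * (1 : ℝ) ^ p := by simp
  have h := Pool.Agent.TH888.R.pt_ceil (α := ((2 : ℕ) : ℝ)) (κ := 1) (C := 0) (g := fun _ => 0)
    (by norm_num) (by norm_num) (by norm_num) hg
    (Pool.Agent.TH888.R.near_base (b := 2) le_rfl (by norm_num) (by norm_num) hg) S
  simp only [Nat.cast_ofNat, add_zero] at h
  rw [div_iff]
  filter_upwards [h] with β hβ h0
  have hp := hβ h0
  constructor
  · intro hi
    by_contra hn
    exact hi (hp.fin hn)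
  · exact hp.inf

end Pool.Agent.Results.MP_9b2bac_nt.Dichotomy
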