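import Mathlib
import Pool.Agent.TH888.R.Base
import Pool.Agent.W66.ST

set_option autoImplicit false

/-!
# The Lenstra-Pomerance-Wagstaff law in base two with a square root error term

For real `β > 0` and a prime `p` let `W β p` be the `p`-rough part (the product, with multiplicity,
of the prime factors larger than `p`) of the largest integer below `β * 2 ^ p`.  For `β = 1` this is
the Mersenne number `2 ^ p - 1` itself.  For a set `S` let `M S β n` be the number of primes `p ≤ n`
in `S` with `W β p` prime, and let `V S n` be the sum of `log p / p` over the primes `p ≤ n` in `S`.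
We prove that for every set `S` of primes with `V S n → ∞` and for almost every `β > 0`
`M S β n = (e ^ γ / log 2) V S n + O((V L) ^ (1/2) (log (V L)) ^ 2)`, where `V = V S n` and
`L = log log n`; for the set of all primes this is
`M β n = (e ^ γ / log 2) log n + O((log n) ^ (1/2) (log log n) ^ (5/2))`.
-/

namespace Pool.Agent.Results.MP_9b2bac_nt.ErrorTermLaw

open Filter Topology MeasureTheory Asymptotics

/-- The product, with multiplicity, of the prime factors of `m` that are larger than `p`. -/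
def roughPart (p m : ℕ) : ℕ := (m.primeFactorsList.filter (fun r => p < r)).prod

/-- The `p`-rough part of the largest integer below `β * 2 ^ p`. -/
noncomputable def W (β : ℝ) (p : ℕ) : ℕ := roughPart p (⌈β * 2 ^ p⌉₊ - 1)

open Classical in
/-- The number of primes `p ≤ n` in the set `S` for which `W β p` is prime. -/
noncomputable def M (S : Set ℕ) (β : ℝ) (n : ℕ) : ℕ :=
  ((Finset.range (n + 1)).filter (fun p => p.Prime ∧ p ∈ S ∧ (W β p).Prime)).card

open Classical in
/-- The sum of `log p / p` over the primes `p ≤ n` in the set `S`. -/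
noncomputable def V (S : Set ℕ) (n : ℕ) : ℝ :=
  ∑ p ∈ (Finset.range (n + 1)).filter (fun p => p.Prime ∧ p ∈ S), Real.log p / p

lemma V_eq (S : Set ℕ) (n : ℕ) : V S n = Pool.Agent.TH888.R.VS S n := by
  classical
  unfold V Pool.Agent.TH888.R.VS
  rw [Finset.sum_filter]
  refine Finset.sum_congr rfl fun p _ => ?_
  by_cases h : p.Prime ∧ p ∈ S
  · rw [if_pos h, if_pos ⟨h.2, h.1⟩]
    rfl
  · rw [if_neg h, if_neg fun h1 => h ⟨h1.2, h1.1⟩]

lemma W_one {p : ℕ} (hp : p.Prime) : W 1 p = 2 ^ p - 1 := by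
  have h := Pool.Agent.W66S.repunit_special (b := 2) le_rfl hp (by
    intro h
    exact hp.one_lt.ne' (Nat.dvd_one.1 h))
  have e1 : ⌈(1 / (((2 : ℕ) : ℝ) - 1)) * ((2 : ℕ) : ℝ) ^ p⌉₊ = ⌈(1 : ℝ) * 2 ^ p⌉₊ := by
    congr 1
    push_cast
    norm_num
  rw [e1, Nat.geomSum_eq le_rfl] at h
  have h2 : W 1 p = Pool.Agent.H305R2.roughPart p (⌈(1 : ℝ) * 2 ^ p⌉₊ - 1) := rfl
  rw [h2, h]
  norm_num

lemma M_eq (S : Set ℕ) (β : ℝ) (n : ℕ) :
    M S β n = Pool.Agent.TH888.R.cS S (fun p => ⌈β * 2 ^ p + (fun _ : ℕ => (0 : ℝ)) p⌉₊ - 1) n := by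
  classical
  unfold M Pool.Agent.TH888.R.cS
  simp only [add_zero]
  rfl

/-- The counting function at `β = 1` is that of the Mersenne primes; for every set of primes of
divergent weight and almost every amplitude, with the base `2` fixed, the law holds with a square
root error term, in particular for the set of all primes. -/
theorem result :
    (∀ n : ℕ, M Set.univ 1 n =
      ((Finset.range (n + 1)).filter (fun p => p.Prime ∧ (2 ^ p - 1).Prime)).card) ∧
    (∀ᵐ β : ℝ, 0 < β →
      (fun n : ℕ => (M Set.univ β n : ℝ) -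
        Real.exp Real.eulerMascheroniConstant / Real.log 2 * Real.log n) =O[atTop]
      (fun n : ℕ => Real.sqrt (Real.log n) * (Real.log (Real.log n)) ^ ((5 : ℝ) / 2))) ∧
    (∀ S : Set ℕ, Tendsto (V S) atTop atTop → ∀ᵐ β : ℝ, 0 < β →
      (fun n : ℕ => (M S β n : ℝ) -
        Real.exp Real.eulerMascheroniConstant / Real.log 2 * V S n) =O[atTop]
      (fun n : ℕ => Real.sqrt (V S n * Real.log (Real.log n)) *
        (Real.log (V S n * Real.log (Real.log n))) ^ 2)) := by
  have hV : ∀ S, V S = Pool.Agent.TH888.R.VS S := fun S => funext fun n => V_eq S n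
  have hpt : ∀ S : Set ℕ, ∀ᵐ β : ℝ, 0 < β → Pool.Agent.TH888.R.Pt
      (fun p => ⌈β * 2 ^ p + (fun _ : ℕ => (0 : ℝ)) p⌉₊ - 1)
      (Real.exp Real.eulerMascheroniConstant / Real.log 2) S := by
    intro S
    have hg : ∀ p : ℕ, |(fun _ : ℕ => (0 : ℝ)) p| ≤ (0 : ℝ) * (1 : ℝ) ^ p := by simp
    have h := Pool.Agent.TH888.R.pt_ceil (α := ((2 : ℕ) : ℝ)) (κ := 1) (C := 0) (g := fun _ => 0)
      (by norm_num) (by norm_num) (by norm_num) hg
      (Pool.Agent.TH888.R.near_base (b := 2) le_rfl (by norm_num) (by norm_num) hg) S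
    simp only [Nat.cast_ofNat] at h
    exact h
  refine ⟨fun n => ?_, ?_, fun S hS => ?_⟩
  · unfold M
    congr 1
    ext p
    simp only [Finset.mem_filter, Set.mem_univ, true_and]
    exact and_congr_right fun _ => and_congr_right fun hp => by rw [W_one hp]
  · filter_upwards [hpt Set.univ] with β hβ h0
    obtain ⟨B, hB, h⟩ := (hβ h0).law Pool.Agent.TH888.R.VS_univ_tendsto
    simp only [M_eq]
    exact Pool.Agent.TH888.R.bigO_all hB h
  · rw [hV] at hS ⊢
    filter_upwards [hpt S] with β hβ h0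
    obtain ⟨B, hB, h⟩ := (hβ h0).law hS
    simp only [M_eq]
    exact Pool.Agent.TH888.R.bigO_set hB hS h

end Pool.Agent.Results.MP_9b2bac_nt.ErrorTermLaw
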