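import Mathlib
import Pool.Agent.TH888.C.Val
import Pool.Agent.H447R2.ML.Spec

set_option autoImplicit false

/-!
# The Lenstra-Pomerance-Wagstaff law for real bases: error term and sets of exponents

For a function `A`, a real base `x > 1` and a prime `p` let `W A x p` be the `p`-rough part (the
product, with multiplicity, of the prime factors larger than `p`) of `⌊A x * (x ^ p - 1)⌋`.  If
`A 2 = 1`, then `W A 2 p` is the Mersenne number `2 ^ p - 1`.  For a set `S` let `M A S x n` be the
number of primes `p ≤ n` in `S` with `W A x p` prime, and let `V S n` be the sum of `log p / p` over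
the primes `p ≤ n` in `S`.  We prove that for every positive `C ^ 2` function `A` and almost every
base `x > 1` the number of primes `p ≤ n` with `W A x p` prime is
`(e ^ γ / log x) log n + O((log n) ^ (1/2) (log log n) ^ (5/2))`, that for every set `S` and almost
every base there are infinitely many such primes `p` in `S` if and only if `V S n` is unbounded, and
that in this case `M A S x n = (e ^ γ / log x) V S n + O((V L) ^ (1/2) (log (V L)) ^ 2)` with
`V = V S n` and `L = log log n`.
-/

namespace Pool.Agent.Results.MP_9b2bac_nt.RealBaseSets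

open Filter Topology MeasureTheory Asymptotics

/-- The product, with multiplicity, of the prime factors of `m` that are larger than `p`. -/
def roughPart (p m : ℕ) : ℕ := (m.primeFactorsList.filter (fun r => p < r)).prod

/-- The `p`-rough part of `⌊A x * (x ^ p - 1)⌋`. -/
noncomputable def W (A : ℝ → ℝ) (x : ℝ) (p : ℕ) : ℕ := roughPart p ⌊A x * (x ^ p - 1)⌋₊

open Classical in
/-- The number of primes `p ≤ n` in the set `S` for which `W A x p` is prime. -/
noncomputable def M (A : ℝ → ℝ) (S : Set ℕ) (x : ℝ) (n : ℕ) : ℕ :=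
  ((Finset.range (n + 1)).filter (fun p => p.Prime ∧ p ∈ S ∧ (W A x p).Prime)).card

open Classical in
/-- The sum of `log p / p` over the primes `p ≤ n` in the set `S`. -/
noncomputable def V (S : Set ℕ) (n : ℕ) : ℝ :=
  ∑ p ∈ (Finset.range (n + 1)).filter (fun p => p.Prime ∧ p ∈ S), Real.log p / p

lemma V_eq (S : Set ℕ) (n : ℕ) : V S n = Pool.Agent.TH888.R.VS S n := by
  classical
  unfold V Pool.Agent.TH888.R.VS
  rw [Finset.sum_filter]
  refine Finset.sum_congr rfl fun p _ => ?_
  by_cases h : p.Prime ∧ p ∈ S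
  · rw [if_pos h, if_pos ⟨h.2, h.1⟩]
    rfl
  · rw [if_neg h, if_neg fun h1 => h ⟨h1.2, h1.1⟩]

/-- At the base `2` the number `W` is the Mersenne number. -/
lemma W_mersenne {A : ℝ → ℝ} (hA : A 2 = 1) {p : ℕ} (hp : p.Prime) : W A 2 p = 2 ^ p - 1 := by
  have hpd : ¬ (p : ℤ) ∣ (2 : ℤ) - 1 := by
    intro h
    have h1 : (p : ℤ) ∣ 1 := by simpa using h
    have h2 : p ∣ 1 := by exact_mod_cast h1
    exact hp.one_lt.ne' (Nat.dvd_one.1 h2)
  have h := Pool.Agent.H447R2.ML.rough_quot (a := 2) (b := 1) (by norm_num) (by norm_num)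
    (by norm_num) hp hpd (x := (1 : ℝ) * (2 ^ p - 1)) (by norm_num)
  have hgeom : (∑ i ∈ Finset.range p, (2 : ℤ) ^ i * 1 ^ (p - 1 - i)) * (2 - 1) =
      (2 : ℤ) ^ p - 1 ^ p := (Commute.all (2 : ℤ) 1).geom_sum₂_mul p
  have h4 : W A 2 p = Pool.Agent.H305R2.roughPart p ⌊(1 : ℝ) * (2 ^ p - 1)⌋₊ := by
    unfold W
    rw [hA]
    rfl
  rw [← h4] at h
  have h5 : W A 2 p + 1 = 2 ^ p := by
    have : ((W A 2 p + 1 : ℕ) : ℤ) = ((2 ^ p : ℕ) : ℤ) := by
      push_cast
      norm_num at h hgeom ⊢
      linarith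
    exact_mod_cast this
  omega

lemma M_eq (A : ℝ → ℝ) (S : Set ℕ) (x : ℝ) (n : ℕ) :
    M A S x n = Pool.Agent.TH888.R.cS S (fun p => ⌊A x * (x ^ p - 1)⌋₊) n := by
  classical
  unfold M Pool.Agent.TH888.R.cS
  rfl

lemma pt {A : ℝ → ℝ} (hA : ContDiffOn ℝ 2 A (Set.Ioi 1)) (hpos : ∀ x : ℝ, 1 < x → 0 < A x)
    (S : Set ℕ) : ∀ᵐ x : ℝ, 1 < x → Pool.Agent.TH888.R.Pt (fun p => ⌊A x * (x ^ p - 1)⌋₊)
      (Real.exp Real.eulerMascheroniConstant / Real.log x) S := by
  have e : max 1 |(1 : ℝ)| = 1 := by norm_num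
  have h := Pool.Agent.TH888.C.pt_curve 1 S (A := A) (by rw [e]; exact hA) (by rw [e]; exact hpos)
  rw [e] at h
  simp only [one_pow] at h
  exact h

/-- At the base `2` the values are the Mersenne numbers, and along every positive `C ^ 2` curve of
amplitudes the law holds with a square root error term for almost every real base; for every set of
primes the number of prime values is finite or infinite according to the weight of the set, and in
the second case it obeys the corresponding law. -/
theorem result :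
    (∀ A : ℝ → ℝ, A 2 = 1 → ∀ p : ℕ, p.Prime → W A 2 p = 2 ^ p - 1) ∧
    (∀ A : ℝ → ℝ, ContDiffOn ℝ 2 A (Set.Ioi 1) → (∀ x : ℝ, 1 < x → 0 < A x) →
      (∀ᵐ x : ℝ, 1 < x →
        (fun n : ℕ => (M A Set.univ x n : ℝ) -
          Real.exp Real.eulerMascheroniConstant / Real.log x * Real.log n) =O[atTop]
        (fun n : ℕ => Real.sqrt (Real.log n) * (Real.log (Real.log n)) ^ ((5 : ℝ) / 2))) ∧
      (∀ S : Set ℕ, Tendsto (V S) atTop atTop → ∀ᵐ x : ℝ, 1 < x →
        (fun n : ℕ => (M A S x n : ℝ) -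
          Real.exp Real.eulerMascheroniConstant / Real.log x * V S n) =O[atTop]
        (fun n : ℕ => Real.sqrt (V S n * Real.log (Real.log n)) *
          (Real.log (V S n * Real.log (Real.log n))) ^ 2)) ∧
      (∀ S : Set ℕ, ∀ᵐ x : ℝ, 1 < x →
        ({p : ℕ | p.Prime ∧ p ∈ S ∧ (W A x p).Prime}.Infinite ↔ Tendsto (V S) atTop atTop))) := by
  have hV : ∀ S, V S = Pool.Agent.TH888.R.VS S := fun S => funext fun n => V_eq S n
  refine ⟨fun A hA p hp => W_mersenne hA hp, fun A hA hpos => ⟨?_, fun S hS => ?_, fun S => ?_⟩⟩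
  · filter_upwards [pt hA hpos Set.univ] with x hx h0
    obtain ⟨B, hB, h⟩ := (hx h0).law Pool.Agent.TH888.R.VS_univ_tendsto
    simp only [M_eq]
    exact Pool.Agent.TH888.R.bigO_all hB h
  · rw [hV] at hS ⊢
    filter_upwards [pt hA hpos S] with x hx h0
    obtain ⟨B, hB, h⟩ := (hx h0).law hS
    simp only [M_eq]
    exact Pool.Agent.TH888.R.bigO_set hB hS h
  · rw [hV]
    filter_upwards [pt hA hpos S] with x hx h0
    constructor
    · intro hi
      by_contra hn
      exact hi ((hx h0).fin hn)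
    · exact (hx h0).inf

end Pool.Agent.Results.MP_9b2bac_nt.RealBaseSets
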