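import Mathlib
import Pool.Agent.TH888.A.Low

set_option autoImplicit false

/-!
# The Lenstra-Pomerance-Wagstaff law for 2-adic units: error term and sets of exponents

For a 2-adic integer `α` and a prime `p` let `W α p` be the `p`-rough part (the product, with
multiplicity, of the prime factors larger than `p`) of the residue of `α` modulo `2 ^ p` in
`[0, 2 ^ p)`, the integer formed by the last `p` binary digits of `α`.  For `α = -1` this is the
Mersenne number `2 ^ p - 1` itself.  For a set `S` let `M S α n` be the number of primes `p ≤ n` in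
`S` with `W α p` prime, and let `V S n` be the sum of `log p / p` over the primes `p ≤ n` in `S`.
We prove that for almost every 2-adic unit `α` (Haar measure) the number of primes `p ≤ n` with
`W α p` prime is `(e ^ γ / log 2) log n + O((log n) ^ (1/2) (log log n) ^ (5/2))`, that for every set
`S` and almost every 2-adic unit `α` there are infinitely many such primes `p` in `S` if and only if
`V S n` is unbounded, and that in this case
`M S α n = (e ^ γ / log 2) V S n + O((V L) ^ (1/2) (log (V L)) ^ 2)` with `V = V S n` and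
`L = log log n`.
-/

namespace Pool.Agent.Results.MP_9b2bac_nt.TwoAdicSets

open Filter Topology MeasureTheory Asymptotics

/-- The product, with multiplicity, of the prime factors of `m` that are larger than `p`. -/
def roughPart (p m : ℕ) : ℕ := (m.primeFactorsList.filter (fun r => p < r)).prod

/-- The `p`-rough part of the residue of the 2-adic integer `α` modulo `2 ^ p`. -/
noncomputable def W (α : ℤ_[2]) (p : ℕ) : ℕ := roughPart p (PadicInt.toZModPow p α).val

open Classical in
/-- The number of primes `p ≤ n` in the set `S` for which `W α p` is prime. -/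
noncomputable def M (S : Set ℕ) (α : ℤ_[2]) (n : ℕ) : ℕ :=
  ((Finset.range (n + 1)).filter (fun p => p.Prime ∧ p ∈ S ∧ (W α p).Prime)).card

open Classical in
/-- The sum of `log p / p` over the primes `p ≤ n` in the set `S`. -/
noncomputable def V (S : Set ℕ) (n : ℕ) : ℝ :=
  ∑ p ∈ (Finset.range (n + 1)).filter (fun p => p.Prime ∧ p ∈ S), Real.log p / p

lemma V_eq (S : Set ℕ) (n : ℕ) : V S n = Pool.Agent.TH888.R.VS S n := by
  classical
  unfold V Pool.Agent.TH888.R.VS
  rw [Finset.sum_filter]
  refine Finset.sum_congr rfl fun p _ => ?_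
  by_cases h : p.Prime ∧ p ∈ S
  · rw [if_pos h, if_pos ⟨h.2, h.1⟩]
    rfl
  · rw [if_neg h, if_neg fun h1 => h ⟨h1.2, h1.1⟩]

lemma M_eq (S : Set ℕ) (α : ℤ_[2]) (n : ℕ) :
    M S α n = Pool.Agent.TH888.R.cS S (fun p => Pool.Agent.W66L.res 2 p α) n := by
  classical
  unfold M Pool.Agent.TH888.R.cS
  rfl

/-- The values at `α = -1` are the Mersenne numbers, and for almost every 2-adic unit the law holds
with a square root error term; for every set of primes the number of prime values is finite or
infinite according to the weight of the set, and in the second case it obeys the corresponding law. -/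
theorem result :
    (∀ p : ℕ, p.Prime → W (-1) p = 2 ^ p - 1) ∧
    (∀ [MeasurableSpace ℤ_[2]] [BorelSpace ℤ_[2]] (μ : Measure ℤ_[2]) [μ.IsAddHaarMeasure],
      (∀ᵐ α : ℤ_[2] ∂μ, IsUnit α →
        (fun n : ℕ => (M Set.univ α n : ℝ) -
          Real.exp Real.eulerMascheroniConstant / Real.log 2 * Real.log n) =O[atTop]
        (fun n : ℕ => Real.sqrt (Real.log n) * (Real.log (Real.log n)) ^ ((5 : ℝ) / 2))) ∧
      (∀ S : Set ℕ, Tendsto (V S) atTop atTop → ∀ᵐ α : ℤ_[2] ∂μ, IsUnit α →
        (fun n : ℕ => (M S α n : ℝ) -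
          Real.exp Real.eulerMascheroniConstant / Real.log 2 * V S n) =O[atTop]
        (fun n : ℕ => Real.sqrt (V S n * Real.log (Real.log n)) *
          (Real.log (V S n * Real.log (Real.log n))) ^ 2)) ∧
      (∀ S : Set ℕ, ∀ᵐ α : ℤ_[2] ∂μ, IsUnit α →
        ({p : ℕ | p.Prime ∧ p ∈ S ∧ (W α p).Prime}.Infinite ↔ Tendsto (V S) atTop atTop))) := by
  have hV : ∀ S, V S = Pool.Agent.TH888.R.VS S := fun S => funext fun n => V_eq S n
  refine ⟨fun p hp => ?_, ?_⟩
  · have h1 : (PadicInt.toZModPow p (-1 : ℤ_[2])).val = 2 ^ p - 1 := by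
      rw [map_neg, map_one]
      have h2 : 1 ≤ 2 ^ p := Nat.one_le_two_pow
      have h3 : (-1 : ZMod (2 ^ p)) = ((2 ^ p - 1 : ℕ) : ZMod (2 ^ p)) := by
        rw [Nat.cast_sub h2, ZMod.natCast_self, Nat.cast_one, zero_sub]
      rw [h3, ZMod.val_natCast, Nat.mod_eq_of_lt (by omega)]
    have h2 : W (-1) p = Pool.Agent.H305R2.roughPart p (PadicInt.toZModPow p (-1 : ℤ_[2])).val := rfl
    rw [h2, h1, Pool.Agent.W66L.rough_mersenne hp]
  · intro _ _ μ _
    have hpt : ∀ S : Set ℕ, ∀ᵐ α : ℤ_[2] ∂μ, IsUnit α → Pool.Agent.TH888.R.Pt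
        (fun p => Pool.Agent.W66L.res 2 p α)
        (Real.exp Real.eulerMascheroniConstant / Real.log 2) S := by
      intro S
      have h := Pool.Agent.TH888.A.pt_full (μ := μ) le_rfl (Pool.Agent.W66L.full_padic 2 μ) S
      filter_upwards [h] with α hα hu
      have hc : (Pool.Agent.W66L.res 2 1 α).Coprime 2 := by
        unfold Pool.Agent.W66L.res
        have h1 : IsUnit (PadicInt.toZModPow 1 α) := hu.map _
        have h2 := ZMod.isUnit_iff_coprime (PadicInt.toZModPow 1 α).val (2 ^ 1)
        rw [ZMod.natCast_zmod_val] at h2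
        simpa using h2.1 h1
      have h3 := hα hc
      simp only [Nat.cast_ofNat] at h3
      exact h3
    refine ⟨?_, fun S hS => ?_, fun S => ?_⟩
    · filter_upwards [hpt Set.univ] with α hα hu
      obtain ⟨B, hB, h⟩ := (hα hu).law Pool.Agent.TH888.R.VS_univ_tendsto
      simp only [M_eq]
      exact Pool.Agent.TH888.R.bigO_all hB h
    · rw [hV] at hS ⊢
      filter_upwards [hpt S] with α hα hu
      obtain ⟨B, hB, h⟩ := (hα hu).law hS
      simp only [M_eq]
      exact Pool.Agent.TH888.R.bigO_set hB hS h
    · rw [hV]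
      filter_upwards [hpt S] with α hα hu
      constructor
      · intro hi
        by_contra hn
        exact hi ((hα hu).fin hn)
      · exact (hα hu).inf

end Pool.Agent.Results.MP_9b2bac_nt.TwoAdicSets
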